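import Pool.Agent.V11328.MK.UpLim

/-!
# The connectivity threshold of the mutual preference graph

Problem `MP_ba8b4a_pr`, question Q1 (La-Kabkab): the threshold is at `c = 1`.

* `costs n`: the costs of the unordered pairs `s(i, j)` of elements of `Fin n` are independent
  exponential random variables with rate `1/n` (the costs of the pairs `s(i, i)` are never used).
* `Prefers k x i j`: for the costs `x`, fewer than `k` of the edges at `i` are cheaper than the edge
  `ij`, so `j` is one of the `k` cheapest neighbours of `i`.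
* `mutualPref k x`: the graph in which `i` and `j` are adjacent if and only if each prefers the other.
-/

open MeasureTheory ProbabilityTheory Filter
open scoped Topology

namespace Pool.Agent.Results.MP_ba8b4a_pr.ConnectivityThreshold

open Pool.Agent.V11328.MK

variable {n : ℕ}

lemma prefers_mono {k m : ℕ} (h : k ≤ m) {x : Sym2 (Fin n) → ℝ} {i j : Fin n}
    (hp : Prefers k x i j) : Prefers m x i j := lt_of_lt_of_le hp h

lemma mutualPref_mono {k m : ℕ} (h : k ≤ m) (x : Sym2 (Fin n) → ℝ) :
    mutualPref k x ≤ mutualPref m x := fun _ _ hij =>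
  ⟨hij.1, prefers_mono h hij.2.1, prefers_mono h hij.2.2⟩

lemma isProb {n : ℕ} (hn : 0 < n) : IsProbabilityMeasure (costs n) := by
  have hn0 : (0 : ℝ) < n := by exact_mod_cast hn
  have hr : (0 : ℝ) < 1 / n := by positivity
  have := isProbabilityMeasure_expMeasure hr
  unfold costs
  infer_instance

lemma prob_mono {n : ℕ} (hn : 0 < n) {k m : ℕ} (h : k ≤ m) :
    (costs n).real {x | (mutualPref k x).Connected} ≤
      (costs n).real {x | (mutualPref m x).Connected} := by
  have := isProb hn
  exact measureReal_mono fun x (hx : (mutualPref k x).Connected) => hx.mono (mutualPref_mono h x)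

/-- Above the threshold, for all degree sequences. -/
theorem above (k : ℕ → ℕ) {c : ℝ} (hc : 1 < c)
    (hk : Tendsto (fun n : ℕ => (k n : ℝ) / Real.log n) atTop (𝓝 c)) :
    Tendsto (fun n : ℕ => (costs n).real {x | (mutualPref (k n) x).Connected}) atTop (𝓝 1) := by
  have h1 : 1 < (1 + c) / 2 := by linarith
  have h2 : (1 + c) / 2 < c := by linarith
  refine tendsto_of_tendsto_of_tendsto_of_le_of_le' (up_limit h1) tendsto_const_nhds ?_ ?_
  · filter_upwards [hk.eventually (eventually_gt_nhds h2), tendsto_log_nat.eventually_gt_atTop 0,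
      eventually_gt_atTop 0] with n hn hL hn0
    refine prob_mono hn0 ?_
    rw [lt_div_iff₀ hL] at hn
    have h3 : (⌊(1 + c) / 2 * Real.log n⌋₊ : ℝ) ≤ k n :=
      (Nat.floor_le (mul_nonneg (by linarith) hL.le)).trans hn.le
    exact_mod_cast h3
  · filter_upwards [eventually_gt_atTop 0] with n hn0
    have := isProb hn0
    exact measureReal_le_one

/-- Below the threshold, for all degree sequences. -/
theorem below (k : ℕ → ℕ) {c : ℝ} (hc : c < 1)
    (hk : Tendsto (fun n : ℕ => (k n : ℝ) / Real.log n) atTop (𝓝 c)) :
    Tendsto (fun n : ℕ => (costs n).real {x | (mutualPref (k n) x).Connected}) atTop (𝓝 0) := by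
  obtain ⟨d, hd1, hd2⟩ := exists_between (max_lt hc one_pos : max c 0 < 1)
  have hcd : c < d := (le_max_left _ _).trans_lt hd1
  have hd0 : 0 < d := (le_max_right _ _).trans_lt hd1
  refine tendsto_of_tendsto_of_tendsto_of_le_of_le' tendsto_const_nhds (low_limit hd0 hd2)
    (Eventually.of_forall fun n => measureReal_nonneg) ?_
  filter_upwards [hk.eventually (eventually_lt_nhds hcd), tendsto_log_nat.eventually_gt_atTop 0,
      eventually_gt_atTop 0] with n hn hL hn0
  refine prob_mono hn0 ?_
  rw [div_lt_iff₀ hL] at hn
  exact Nat.le_floor hn.le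

/-- **Full (positive) answer to Q1.** With `k(n) = ⌊c log n⌋` the mutual preference graph is
connected with probability tending to `1` for every `c > 1` and with probability tending to `0` for
every `0 < c < 1`. The same holds for every sequence `k(n)` with `k(n) / log n → c`. -/
theorem result :
    (∀ c : ℝ, 1 < c →
      Tendsto (fun n : ℕ => (costs n).real {x | (mutualPref ⌊c * Real.log n⌋₊ x).Connected})
        atTop (𝓝 1)) ∧
    (∀ c : ℝ, 0 < c → c < 1 →
      Tendsto (fun n : ℕ => (costs n).real {x | (mutualPref ⌊c * Real.log n⌋₊ x).Connected})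
        atTop (𝓝 0)) ∧
    (∀ (k : ℕ → ℕ) (c : ℝ), Tendsto (fun n : ℕ => (k n : ℝ) / Real.log n) atTop (𝓝 c) →
      (1 < c → Tendsto (fun n : ℕ => (costs n).real {x | (mutualPref (k n) x).Connected})
        atTop (𝓝 1)) ∧
      (c < 1 → Tendsto (fun n : ℕ => (costs n).real {x | (mutualPref (k n) x).Connected})
        atTop (𝓝 0))) :=
  ⟨fun _ hc => up_limit hc, fun _ h0 h1 => low_limit h0 h1,
    fun k _ hk => ⟨fun hc => above k hc hk, fun hc => below k hc hk⟩⟩

end Pool.Agent.Results.MP_ba8b4a_pr.ConnectivityThreshold
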